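import Pool.Agent.H426AM.Final
import Pool.Agent.Y854.GM.Cum
import Pool.Agent.Y854.GM.Lim

/-!
# The lower bound in the asymptotic formula for the variance, for almost all moduli of thin sequences

For every `c > 1` and all `α > 0` outside a set of dimension less than one: for all but a power saving proportion of
the `n ≤ N` the modulus `k = ⌊α n ^ c⌋` satisfies `G(X,k) ≥ X (log k - 1/2 log X - ε log X)` for all real `X ≥ k`.
If `c` is larger than a bound depending on `ε`, this holds for all but finitely many `n`.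
-/

set_option autoImplicit false

namespace Pool.Agent.Results.MP_5dd4bb_nt.SparseModuli

open Finset

/-- `ψ(X; Q, A)`: the sum of `Λ(n)` over the `n ≤ X` with `n ≡ A mod Q`. -/
noncomputable def psi (X : ℝ) (Q A : ℕ) : ℝ :=
  ∑ n ∈ (Icc 1 ⌊X⌋₊).filter (fun n => n ≡ A [MOD Q]), ArithmeticFunction.vonMangoldt n

/-- `G(X, Q)`: the sum of `(ψ(X; Q, A) - X/φ(Q))²` over the reduced residue classes `A` modulo `Q`. -/
noncomputable def G (X : ℝ) (Q : ℕ) : ℝ :=
  ∑ A ∈ (range Q).filter (fun A => A.Coprime Q), (psi X Q A - X / Nat.totient Q) ^ 2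

/-- The modulus `k ≥ 1` is exceptional: for some real `X ≥ k` the variance `G(X, k)` is less than
`X (log k - 1/2 log X - ε log X)`. -/
def Exceptional (ε : ℝ) (k : ℕ) : Prop :=
  1 ≤ k ∧ ∃ X : ℝ, (k : ℝ) ≤ X ∧ G X k < X * (Real.log k - 1 / 2 * Real.log X - ε * Real.log X)

lemma exc_mono {ε ε' : ℝ} (h : ε' ≤ ε) {k : ℕ} (hk : Exceptional ε k) : Exceptional ε' k := by
  obtain ⟨hk0, X, hX, hlt⟩ := hk
  refine ⟨hk0, X, hX, lt_of_lt_of_le hlt ?_⟩
  have hk1 : (1 : ℝ) ≤ k := by exact_mod_cast hk0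
  have hX0 : 0 ≤ X := by linarith
  have hl : 0 ≤ Real.log X := Real.log_nonneg (by linarith)
  apply mul_le_mul_of_nonneg_left _ hX0
  have := mul_le_mul_of_nonneg_right h hl
  linarith

/-- `k ≥ 1` and `G(X, k) ≥ X (log k - 1/2 log X - ε log X)` for all real `X ≥ k`. -/
def Good (ε : ℝ) (k : ℕ) : Prop :=
  1 ≤ k ∧ ∀ X : ℝ, (k : ℝ) ≤ X → X * (Real.log k - 1 / 2 * Real.log X - ε * Real.log X) ≤ G X k

lemma not_good {ε : ℝ} {k : ℕ} (h : ¬ Good ε k) : k = 0 ∨ Exceptional ε k := by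
  by_cases h0 : 1 ≤ k
  · right
    unfold Good at h
    push Not at h
    obtain ⟨X, hX1, hX2⟩ := h h0
    exact ⟨h0, X, hX1, hX2⟩
  · left
    omega

/-- zero and the exceptional moduli -/
def Bad (ε : ℝ) : Set ℕ := {k : ℕ | k = 0 ∨ Exceptional ε k}

open Classical in
lemma count (ε : ℝ) (hε : 0 < ε) : ∃ η : ℝ, 0 < η ∧ ∃ C : ℝ, ∀ X : ℕ,
    (((Ioc 0 X).filter (fun k => k ∈ Bad ε)).card : ℝ) ≤ C * (X : ℝ) ^ (1 - η) := by
  obtain ⟨κ, K₀, hκ, hK⟩ := H426AM.main ε hε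
  refine Pool.Agent.Y854.GM.cum_pow (Bad ε) hκ ⌈K₀⌉₊ ?_
  intro K hK0
  refine le_trans ?_ (hK K (Nat.ceil_le.1 hK0))
  have hsub : (Ioc K (2 * K)).filter (fun k => k ∈ Bad ε) ⊆
      (Ioc K (2 * K)).filter (fun k : ℕ => ∃ X : ℝ, (k : ℝ) ≤ X ∧
        G X k < X * (Real.log k - 1 / 2 * Real.log X - ε * Real.log X)) := by
    intro k hk
    rw [mem_filter] at hk ⊢
    refine ⟨hk.1, ?_⟩
    rcases hk.2 with h0 | ⟨_, h1⟩
    · have := (mem_Ioc.1 hk.1).1
      omega
    · exact h1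
  exact_mod_cast card_le_card hsub

open Classical in
/-- **The lower bound for the variance for almost all moduli of thin sequences.**
(1) For every `c > 1` there is a set `E` of real numbers of Hausdorff dimension less than one such that for every
`α > 0` outside `E` and every `ε > 0` there are `δ > 0` and `N₀` such that for `N ≥ N₀` all but at most
`N ^ (1 - δ)` of the integers `n ≤ N` have the following property: the modulus `k = ⌊α n ^ c⌋` satisfies
`G(X, k) ≥ X (log k - 1/2 log X - ε log X)` for ALL real `X ≥ k` at once.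
(2) For every `ε > 0` there is `c₀` such that for every `c > c₀` there is a set `E` of dimension less than one such
that for every `α > 0` outside `E` all but finitely many `n` have this property. -/
theorem result :
    (∀ c : ℝ, 1 < c → ∃ E : Set ℝ, dimH E < 1 ∧ ∀ α : ℝ, 0 < α → α ∉ E → ∀ ε : ℝ, 0 < ε →
      ∃ δ : ℝ, 0 < δ ∧ δ < 1 ∧ ∃ N₀ : ℕ, ∀ N : ℕ, N₀ ≤ N →
        (((Icc 1 N).filter (fun n : ℕ => ¬ Good ε ⌊α * (n : ℝ) ^ c⌋₊)).card : ℝ) ≤ (N : ℝ) ^ (1 - δ)) ∧
    (∀ ε : ℝ, 0 < ε → ∃ c₀ : ℝ, 1 < c₀ ∧ ∀ c : ℝ, c₀ < c → ∃ E : Set ℝ, dimH E < 1 ∧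
      ∀ α : ℝ, 0 < α → α ∉ E → ∃ n₀ : ℕ, ∀ n : ℕ, n₀ ≤ n → Good ε ⌊α * (n : ℝ) ^ c⌋₊) := by
  refine ⟨fun c hc => ?_, fun ε hε => ?_⟩
  · obtain ⟨E, hE, h⟩ := Pool.Agent.Y854.GM.sets_pow c hc
      (fun j : ℕ => Bad (1 / ((j : ℝ) + 1)))
    refine ⟨E, hE, fun α hα hαE ε hε => ?_⟩
    obtain ⟨j, hj⟩ := exists_nat_one_div_lt hε
    obtain ⟨η, hη, C, hC⟩ := count (1 / ((j : ℝ) + 1)) (by positivity)
    obtain ⟨δ, hδ, hδ1, N₀, hN⟩ := h α hα hαE j η C hη ⟨0, fun X _ => hC X⟩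
    refine ⟨δ, hδ, hδ1, N₀, fun N hNN => le_trans ?_ (hN N hNN)⟩
    have hsub : (Icc 1 N).filter (fun n : ℕ => ¬ Good ε ⌊α * (n : ℝ) ^ c⌋₊) ⊆
        (Icc 1 N).filter (fun n : ℕ => ⌊α * (n : ℝ) ^ c⌋₊ ∈ Bad (1 / ((j : ℝ) + 1))) := by
      intro n hn
      rw [mem_filter] at hn ⊢
      refine ⟨hn.1, ?_⟩
      rcases not_good hn.2 with h0 | h0
      · exact Or.inl h0
      · exact Or.inr (exc_mono hj.le h0)
    exact_mod_cast card_le_card hsub
  · obtain ⟨η, hη, C, hC⟩ := count ε hε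
    set η' : ℝ := min η (1 / 2) with hη'
    have h0 : 0 < η' := by
      rw [hη']
      positivity
    have h1 : η' ≤ η := min_le_left _ _
    have h2 : η' ≤ 1 / 2 := min_le_right _ _
    refine ⟨1 / η', ?_, fun c hc => ?_⟩
    · rw [lt_div_iff₀ h0]
      linarith
    have hc1 : 1 < c := by
      refine lt_trans ?_ hc
      rw [lt_div_iff₀ h0]
      linarith
    have hc0 : 0 < c := by linarith
    obtain ⟨E, hE, h⟩ := Pool.Agent.Y854.GM.finite_in c (1 - η') hc1 (by linarith)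
      (Bad ε) |C| (abs_nonneg _) (fun X => by
        rcases Nat.eq_zero_or_pos X with rfl | hX
        · simp only [Ioc_self, filter_empty, card_empty, Nat.cast_zero]
          positivity
        · refine (hC X).trans ?_
          have hXp : (1 : ℝ) ≤ X := by exact_mod_cast hX
          calc C * (X : ℝ) ^ (1 - η) ≤ |C| * (X : ℝ) ^ (1 - η) :=
                mul_le_mul_of_nonneg_right (le_abs_self C) (by positivity)
            _ ≤ |C| * (X : ℝ) ^ (1 - η') := by
                apply mul_le_mul_of_nonneg_left _ (abs_nonneg _)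
                exact Real.rpow_le_rpow_of_exponent_le hXp (by linarith))
    refine ⟨E, lt_of_le_of_lt hE ?_, fun α hα hαE => ?_⟩
    · have h3 : 1 / c < η' := by
        rw [div_lt_iff₀ h0] at hc
        rw [div_lt_iff₀ hc0]
        linarith
      have : (1 : ENNReal) = ENNReal.ofReal 1 := by simp
      rw [this]
      exact (ENNReal.ofReal_lt_ofReal_iff (by norm_num)).mpr (by linarith)
    · obtain ⟨n₀, hn⟩ := h α hα hαE
      refine ⟨n₀, fun n hn1 => ?_⟩
      by_contra hg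
      exact (hn n hn1).2 (not_good hg)

end Pool.Agent.Results.MP_5dd4bb_nt.SparseModuli
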